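import Pool.Agent.Lib.P913T.Final

/-!
# The class TM(2,3) contains no universal machine

Every one of the `13 ^ 6` tables with 2 states and 3 symbols gets a finite certificate which is checked by the kernel.
There are two kinds of certificates.

* Potentials: two finite automata read the visited cells on the left and on the right of the head; nonnegative weights
  of the letters and a potential of the classes show that the head leaves the visited part only a bounded number of
  times before it halts, except in classes which never halt.
* Black boxes: the blank half-line answers to each sequence of visits like a finite automaton; this is proved by
  comparing the half-line with one cell and a half-line behind it (partial correctness), and by a rank of the sequence
  of visits which decreases from cell to cell (termination). If both half-lines are black boxes, then the machine works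
  on a tape of fixed length.
-/

set_option autoImplicit false

namespace Pool.Agent.Results.MP_913c58_lc.NoUniversal_2_3

open P913

/-- For every machine with 2 states and 3 symbols the halting problem (for all input words) is decidable, and the
machine is not universal. -/
theorem result (U : TM 2 3) : (ComputablePred fun x : List (Fin 3) => Halts U x) ∧ ¬ Universal U :=
  P913T.noUniversal23 U

end Pool.Agent.Results.MP_913c58_lc.NoUniversal_2_3
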