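import Pool.Agent.Lib.P913.Embed
import Pool.Agent.Lib.P913.KUniT
import Pool.Agent.Lib.P913.KInst73
import Pool.Agent.Lib.P913N.NUni
import Pool.Agent.Lib.P913N.NInst44
import Pool.Agent.Lib.P913N.NInst36

/-!
# Universal machines in the classes TM(k,n) with k, n at least 3 and kn at least 16
-/

set_option autoImplicit false

namespace Pool.Agent.Results.MP_913c58_lc.ProductSixteen

open P913

/-- Let `k` and `n` be at least `3` and `k n` at least `16`.  Then the class of the Turing machines with `k` states and `n`
symbols contains a universal machine, except possibly for `(k, n) = (6, 3)`. -/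
theorem result (k n : ℕ) [NeZero k] [NeZero n] (hk : 3 ≤ k) (hn : 3 ≤ n) (hkn : 16 ≤ k * n)
    (h63 : (k, n) ≠ (6, 3)) : ∃ U : TM k n, Universal U := by
  by_cases h4 : 4 ≤ k ∧ 4 ≤ n
  · exact exists_universal_of_le P913N.U44 (P913N.universal_of_nsim _ P913N.nsim44) h4.1 h4.2
  · by_cases hk3 : k = 3
    · exact exists_universal_of_le P913N.U36 (P913N.universal_of_nsim _ P913N.nsim36) hk (by subst hk3; omega)
    · have hn3 : n = 3 := by omega
      have hk7 : 7 ≤ k := by
        have h6 : k ≠ 6 := fun h => h63 (by rw [h, hn3])
        rw [hn3] at hkn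
        omega
      exact exists_universal_of_le U73 (universal_of_loc' ok73.loc) hk7 hn

end Pool.Agent.Results.MP_913c58_lc.ProductSixteen
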