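import Pool.Agent.Lib.P913.MFull

/-!
# The class TM(2,8) contains a universal machine
-/

set_option autoImplicit false

namespace Pool.Agent.Results.MP_913c58_lc.UTM_2_8

open P913

/-- The Turing machine with 2 states and 8 symbols (blank `0`) which is given by the table is universal: there are
total computable maps `e` and `d` such that it halts on `e (M, x)` if and only if `M` halts on `x`, and then `d` maps
its output to the output of `M`. -/
theorem result : Universal (k := 2) (n := 8) ![
    ![(2, false, some 0), (2, false, some 1), (0, true, some 0), (1, true, some 0),
      (6, true, some 1), (6, true, some 1), (4, false, some 1), (4, false, some 0)],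
    ![(3, false, some 0), (3, false, some 1), (0, true, some 1), (1, true, some 1),
      (7, true, some 0), (5, true, none), (6, true, some 0), (5, false, some 0)]] :=
  universal28

end Pool.Agent.Results.MP_913c58_lc.UTM_2_8
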